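import Pool.Agent.Helper82.AH.Props
import Pool.Agent.Helper82.AH.Basic
import Pool.Agent.Helper10.RC.Homs

/-!
# MP_b55b7c_an: AH algebras of dimension growth `o(n^2)` have approximate stable rank one
-/

open scoped ENNReal NNReal InnerProductSpace ComplexOrder
open Filter Topology

attribute [-instance] CStarMatrix.instAlgebra CStarMatrix.instModule CStarMatrix.instSMul
  CStarMatrix.instMulAction CStarMatrix.instDistribMulAction

noncomputable section
namespace RC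
universe u

namespace AS12

theorem trM_proj_nonneg {N : ℕ} {p : Mt N} (hp : IsStarProjection p) : 0 ≤ trM p := by
  have h : star p * p = p := by
    rw [hp.isSelfAdjoint.star_eq]
    exact hp.isIdempotentElem
  have h1 : p.mat = p.mat.conjTranspose * p.mat := by
    have h2 : (star p * p).mat = p.mat.conjTranspose * p.mat := rfl
    rw [← h2, h]
  have h3 := (Matrix.posSemidef_conjTranspose_mul_self p.mat).trace_nonneg
  rw [← h1] at h3
  exact (Complex.le_def.1 h3).1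

theorem rkM_mul_le {N : ℕ} (a b : Mt N) : rkM (a * b) ≤ rkM a := by
  unfold rkM
  exact Matrix.rank_mul_le_left a.mat b.mat

theorem sq_le_one' {B : Type*} [CStarAlgebra B] [PartialOrder B] [StarOrderedRing B] {c : B}
    (h0 : 0 ≤ c) (h1 : c ≤ 1) : c * c ≤ 1 := by
  have hs : star c = c := h0.isSelfAdjoint.star_eq
  have h2 : ‖c‖ ≤ 1 := (CStarAlgebra.norm_le_one_iff_of_nonneg c h0).2 h1
  have h3 : 0 ≤ c * c := by
    have := star_mul_self_nonneg c
    rwa [hs] at this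
  refine (CStarAlgebra.norm_le_one_iff_of_nonneg (c * c) h3).1 ?_
  calc ‖c * c‖ ≤ ‖c‖ * ‖c‖ := norm_mul_le _ _
    _ ≤ 1 * 1 := mul_le_mul h2 h2 (norm_nonneg _) zero_le_one
    _ = 1 := one_mul 1

theorem exists_k (D : ℕ) : ∃ k : ℕ, D < 2 * k ^ 2 ∧ 1 ≤ k ∧ 2 * (k - 1) ^ 2 ≤ D := by
  classical
  have hex : ∃ k : ℕ, D < 2 * k ^ 2 := ⟨D + 1, by nlinarith⟩
  refine ⟨Nat.find hex, Nat.find_spec hex, ?_, ?_⟩
  · by_contra h
    have h0 : Nat.find hex = 0 := by omega
    have := Nat.find_spec hex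
    rw [h0] at this
    simp at this
  · have h1 : 1 ≤ Nat.find hex := by
      by_contra h
      have h0 : Nat.find hex = 0 := by omega
      have := Nat.find_spec hex
      rw [h0] at this
      simp at this
    have := Nat.find_min hex (show Nat.find hex - 1 < Nat.find hex by omega)
    omega

/-- One block. -/
theorem block (hCR : CornerRankP) (hCU : CutRankP) (hTB : TrBdP.{u}) {A : Type u} [CStarAlgebra A]
    [PartialOrder A] [StarOrderedRing A] (H : HCor A) (f : C(H.X, Mt H.N)) (δ θ : ℝ) (hδ : 0 < δ)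
    (hθ : 0 < θ) (hK : ∀ x, (1 / θ ^ 2 + 1) * ((H.D : ℝ) + 1) ≤ trM (H.p x) ^ 2) :
    ∃ g a b L χ : C(H.X, Mt H.N), H.p * a * H.p = a ∧ H.p * b * H.p = b ∧
      H.p * L * H.p = L ∧ H.p * χ * H.p = χ ∧
      (∀ x, ‖g x - (H.p * f * H.p) x‖ ≤ δ) ∧ a * g + b * L = H.p ∧ (∀ x, 0 ≤ L x) ∧
      (∀ x, 0 ≤ χ x ∧ χ x ≤ 1) ∧ χ * L = L ∧
      ∀ φ : TState A, (φ.φ (H.ψ (χ * χ))).re ≤ θ * (φ.φ (H.ψ 1)).re := by
  obtain ⟨k, hk1, hk2, hk3⟩ := exists_k H.D
  have hpfp : H.p * (H.p * f * H.p) * H.p = H.p * f * H.p := by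
    rw [← mul_assoc, ← mul_assoc, H.p_p, mul_assoc, H.p_p]
  obtain ⟨g, hg1, hg2, hg3⟩ := hCR H.D H.N k H.X H.cpt H.p (H.p * f * H.p) δ H.proj hpfp hδ hk1
  obtain ⟨a, b, L, χ, ha, hb, hL, hχ, hab, hL0, hχ0, hχL⟩ :=
    hCU H.D H.N k H.X H.cpt H.p g H.proj hg1 hg3
  refine ⟨g, a, b, L, χ, ha, hb, hL, hχ, hg2, hab, hL0, fun x => ⟨(hχ0 x).1, (hχ0 x).2.1⟩, hχL,
    fun φ => ?_⟩
  refine hTB A φ H (χ * χ) θ hθ.le ?_ (fun x => ⟨?_, ?_⟩) fun x => ?_
  · have h1 : H.p * χ = χ := by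
      rw [← hχ, ← mul_assoc, ← mul_assoc, H.p_p]
    have h2 : χ * H.p = χ := by
      rw [← hχ, mul_assoc, H.p_p]
    rw [← mul_assoc, h1, mul_assoc, h2]
  · rw [ContinuousMap.mul_apply]
    have := star_mul_self_nonneg (χ x)
    rwa [(hχ0 x).1.isSelfAdjoint.star_eq] at this
  · rw [ContinuousMap.mul_apply]
    exact sq_le_one' (hχ0 x).1 (hχ0 x).2.1
  · have h1 : rkM ((χ * χ) x) ≤ k - 1 := by
      rw [ContinuousMap.mul_apply]
      have h2 := rkM_mul_le (χ x) (χ x)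
      have h3 := (hχ0 x).2.2
      omega
    have h2 : ((k - 1 : ℕ) : ℝ) ≤ θ * trM (H.p x) := by
      have h3 := hK x
      have h4 : 0 ≤ trM (H.p x) := trM_proj_nonneg (H.proj x)
      have h5 : (2 : ℝ) * ((k - 1 : ℕ) : ℝ) ^ 2 ≤ H.D := by exact_mod_cast hk3
      have h6 : (0 : ℝ) ≤ θ * trM (H.p x) := by positivity
      refine le_of_sq_le_sq ?_ h6
      have h7 : (1 : ℝ) * (((k - 1 : ℕ) : ℝ) ^ 2) ≤ θ ^ 2 * trM (H.p x) ^ 2 := by
        calc (1 : ℝ) * (((k - 1 : ℕ) : ℝ) ^ 2) ≤ 1 * ((H.D : ℝ) + 1) := by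
              have : 0 ≤ ((k - 1 : ℕ) : ℝ) ^ 2 := by positivity
              linarith
          _ = θ ^ 2 * ((1 / θ ^ 2) * ((H.D : ℝ) + 1)) := by field_simp
          _ ≤ θ ^ 2 * ((1 / θ ^ 2 + 1) * ((H.D : ℝ) + 1)) := by
              refine mul_le_mul_of_nonneg_left ?_ (by positivity)
              refine mul_le_mul_of_nonneg_right ?_ (by positivity)
              linarith
          _ ≤ θ ^ 2 * trM (H.p x) ^ 2 := mul_le_mul_of_nonneg_left h3 (by positivity)
      rw [mul_pow]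
      linarith
    calc (rkM ((χ * χ) x) : ℝ) ≤ ((k - 1 : ℕ) : ℝ) := by exact_mod_cast h1
      _ ≤ _ := h2

section
variable {A : Type u} [CStarAlgebra A] {n : ℕ} (H : Fin n → HCor A)

/-- The sum of the blocks. -/
def S (f : ∀ l, C((H l).X, Mt (H l).N)) : A := ∑ l, (H l).ψ (f l)

theorem S_mul (hort : ∀ l m, l ≠ m → ∀ f g, (H l).ψ f * (H m).ψ g = 0)
    (f g : ∀ l, C((H l).X, Mt (H l).N)) (hf : ∀ l, (H l).p * f l * (H l).p = f l) :
    S H f * S H g = S H (fun l => f l * g l) := by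
  unfold S
  rw [Finset.sum_mul_sum]
  refine Finset.sum_congr rfl fun l _ => ?_
  rw [Finset.sum_eq_single l]
  · exact ((H l).psi_mul (f l) (g l) (hf l)).symm
  · intro m _ hm
    exact hort l m (Ne.symm hm) _ _
  · intro h
    exact absurd (Finset.mem_univ l) h

theorem S_add (f g : ∀ l, C((H l).X, Mt (H l).N)) :
    S H f + S H g = S H (fun l => f l + g l) := by
  unfold S
  rw [← Finset.sum_add_distrib]
  refine Finset.sum_congr rfl fun l _ => ?_
  rw [map_add]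

theorem S_sub (f g : ∀ l, C((H l).X, Mt (H l).N)) :
    S H f - S H g = S H (fun l => f l - g l) := by
  unfold S
  rw [← Finset.sum_sub_distrib]
  refine Finset.sum_congr rfl fun l _ => ?_
  rw [map_sub]

theorem S_p (hone : ∑ l, (H l).ψ 1 = 1) : S H (fun l => (H l).p) = 1 := by
  unfold S
  rw [← hone]
  refine Finset.sum_congr rfl fun l _ => ?_
  rw [(H l).psi_one]

theorem norm_S_le (f : ∀ l, C((H l).X, Mt (H l).N)) (δ : ℝ) (hδ : 0 ≤ δ)
    (h : ∀ l x, ‖f l x‖ ≤ δ) : ‖S H f‖ ≤ n * δ := by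
  unfold S
  calc ‖∑ l, (H l).ψ (f l)‖ ≤ ∑ l, ‖(H l).ψ (f l)‖ := norm_sum_le _ _
    _ ≤ ∑ _l : Fin n, δ := Finset.sum_le_sum fun l _ => (H l).norm_le (f l) δ hδ (h l)
    _ = n * δ := by rw [Finset.sum_const, Finset.card_univ, Fintype.card_fin, nsmul_eq_mul]

end

theorem S_nonneg {A : Type u} [CStarAlgebra A] [PartialOrder A] [StarOrderedRing A] {n : ℕ}
    (H : Fin n → HCor A) (f : ∀ l, C((H l).X, Mt (H l).N)) (h : ∀ l x, 0 ≤ f l x) :
    0 ≤ S H f :=
  Finset.sum_nonneg fun l _ => (H l).psi_nonneg (f l) (h l)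

/-- If `χ L = L` then `cfc F L ≤ χ χ` for `F = min 1 (j t)`. -/
theorem cfc_le_sq {A : Type u} [CStarAlgebra A] [PartialOrder A] [StarOrderedRing A]
    (L χ : A) (hL : 0 ≤ L) (hχ : IsSelfAdjoint χ) (h : χ * L = L) (j : ℕ) :
    cfc (fun t : ℝ => min 1 ((j : ℝ) * t)) L ≤ χ * χ := by
  set F : ℝ → ℝ := fun t => min 1 ((j : ℝ) * t) with hFdef
  have hF : Continuous F := by rw [hFdef]; fun_prop
  set Y : A := cfc F L with hY
  have hLs : IsSelfAdjoint L := hL.isSelfAdjoint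
  have hYs : star Y = Y := (cfc_predicate F L).star_eq
  have hsp : ∀ t ∈ spectrum ℝ L, 0 ≤ t := fun t ht => spectrum_nonneg_of_nonneg hL ht
  have hF0 : ∀ t ∈ spectrum ℝ L, 0 ≤ F t := fun t ht => by
    have := hsp t ht
    exact le_min zero_le_one (by positivity)
  -- the square
  have hYY : Y * Y ≤ (j : ℝ) • L := by
    have h1 : Y * Y = cfc (fun t => F t * F t) L := by
      rw [hY, ← cfc_mul F F L hF.continuousOn hF.continuousOn]
    have h2 : (j : ℝ) • L = cfc (fun t : ℝ => (j : ℝ) * t) L := by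
      rw [cfc_const_mul_id (j : ℝ) L hLs]
    rw [h1, h2]
    refine cfc_mono (fun t ht => ?_) (hF.mul hF).continuousOn (by fun_prop)
    have h3 : F t ≤ 1 := min_le_left _ _
    have h4 : F t ≤ (j : ℝ) * t := min_le_right _ _
    have h5 := hF0 t ht
    nlinarith
  set Z : A := 1 - χ with hZ
  have hZL : Z * L = 0 := by rw [hZ, sub_mul, one_mul, h, sub_self]
  have hZY : Z * Y = 0 := by
    have h1 : Z * (Y * Y) * star Z ≤ Z * ((j : ℝ) • L) * star Z :=
      star_right_conjugate_le_conjugate hYY Z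
    have h2 : Z * ((j : ℝ) • L) * star Z = 0 := by
      rw [mul_smul_comm, hZL, smul_zero, zero_mul]
    have h3 : Z * (Y * Y) * star Z = (Z * Y) * star (Z * Y) := by
      rw [star_mul, hYs]
      simp only [mul_assoc]
    rw [h2, h3] at h1
    have h4 : (Z * Y) * star (Z * Y) = 0 := le_antisymm h1 (mul_star_self_nonneg _)
    exact CStarRing.mul_star_self_eq_zero_iff _ |>.mp h4
  have hχY : χ * Y = Y := by
    rw [hZ, sub_mul, one_mul, sub_eq_zero] at hZY
    exact hZY.symm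
  have hYχ : Y * χ = Y := by
    have := congrArg star hχY
    rwa [star_mul, hYs, hχ.star_eq] at this
  have hY1 : Y ≤ 1 := by
    have h1 : (1 : A) = cfc (fun _ : ℝ => (1 : ℝ)) L := by
      rw [cfc_const_one ℝ L hLs]
    rw [h1]
    exact cfc_mono (fun t _ => min_le_left _ _) hF.continuousOn (by fun_prop)
  have h2 : χ * Y * star χ ≤ χ * 1 * star χ := star_right_conjugate_le_conjugate hY1 χ
  rw [hχ.star_eq, hχY, hYχ, mul_one] at h2
  exact h2

theorem re_mono {A : Type u} [CStarAlgebra A] [PartialOrder A] [StarOrderedRing A]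
    (φ : TState A) {a b : A} (h : a ≤ b) : (φ.φ a).re ≤ (φ.φ b).re := by
  have h1 := φ.nonneg (b - a) (sub_nonneg.2 h)
  rw [map_sub] at h1
  have h2 := (Complex.le_def.1 h1).1
  rw [Complex.sub_re, Complex.zero_re] at h2
  linarith

end AS12

open AS12 in
/-- AS. -/
theorem asrSlow (hCR : CornerRankP) (hCU : CutRankP) (hTB : TrBdP.{u}) : AsrSlowP.{u} := by
  intro A _ _ _ hS x η θ hη hθ
  obtain ⟨n, H, hort, hone, hK, hF⟩ := hS {x} (η / 2) (1 / θ ^ 2 + 1) (by linarith)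
  obtain ⟨f, hf⟩ := hF x (Finset.mem_singleton_self x)
  have hδ : 0 < η / (2 * n + 2) := by positivity
  choose g a b L χ ha hb hL hχ hg hab hL0 hχ0 hχL hφ using fun l =>
    block hCR hCU hTB (H l) (f l) (η / (2 * n + 2)) θ hδ hθ (hK l)
  have hχs : ∀ l, star (χ l) = χ l := by
    intro l
    ext1 x
    exact (hχ0 l x).1.isSelfAdjoint.star_eq
  have hSχ : IsSelfAdjoint (S H χ) := by
    unfold IsSelfAdjoint S
    rw [star_sum]
    refine Finset.sum_congr rfl fun l _ => ?_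
    rw [← (H l).map_star', hχs]
  have hSχL : S H χ * S H L = S H L := by
    rw [S_mul H hort χ L hχ]
    congr 1
    funext l
    exact hχL l
  have hSL : 0 ≤ S H L := S_nonneg H L hL0
  refine ⟨S H g, S H L, ?_, hSL, ⟨S H a, S H b, ?_⟩, ?_⟩
  · have h1 : S H f = S H (fun l => (H l).p * f l * (H l).p) := by
      unfold S
      refine Finset.sum_congr rfl fun l _ => ?_
      rw [(H l).comp]
    have h2 : ‖S H f - S H g‖ ≤ n * (η / (2 * n + 2)) := by
      rw [h1, S_sub]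
      refine norm_S_le H _ _ hδ.le fun l x => ?_
      rw [ContinuousMap.sub_apply, norm_sub_rev]
      exact hg l x
    have h3 : (n : ℝ) * (η / (2 * n + 2)) ≤ η / 2 := by
      rw [mul_div_assoc', div_le_div_iff₀ (by positivity) (by norm_num)]
      nlinarith
    have h4 : x - S H g = (x - S H f) + (S H f - S H g) := by abel
    rw [h4]
    have h5 : ‖x - S H f‖ ≤ η / 2 := hf
    calc ‖(x - S H f) + (S H f - S H g)‖ ≤ ‖x - S H f‖ + ‖S H f - S H g‖ := norm_add_le _ _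
      _ ≤ η / 2 + η / 2 := add_le_add h5 (h2.trans h3)
      _ = η := by ring
  · rw [S_mul H hort a g ha, S_mul H hort b L hb, S_add, ← S_p H hone]
    congr 1
    funext l
    exact hab l
  · intro φ σ hq
    unfold QTrace.dim
    refine ciSup_le fun j => ?_
    have hc : Continuous fun t : ℝ => min 1 ((j : ℝ) * t) := by fun_prop
    rw [← one1_cfc _ hc _ hSL.isSelfAdjoint, hq]
    have h1 : (∑ i : Unit, (φ.φ ((one1 (cfc (fun t : ℝ => min 1 ((j : ℝ) * t)) (S H L)) :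
        CStarMatrix Unit Unit A) i i)).re) =
        (φ.φ (cfc (fun t : ℝ => min 1 ((j : ℝ) * t)) (S H L))).re := by
      rw [Fintype.sum_unique]
      rfl
    rw [h1]
    refine (re_mono φ (cfc_le_sq (S H L) (S H χ) hSL hSχ hSχL j)).trans ?_
    rw [S_mul H hort χ χ hχ]
    have h2 : S H (fun l => χ l * χ l) = ∑ l, (H l).ψ (χ l * χ l) := rfl
    rw [h2, map_sum, Complex.re_sum]
    calc ∑ l, (φ.φ ((H l).ψ (χ l * χ l))).re ≤ ∑ l, θ * (φ.φ ((H l).ψ 1)).re :=
          Finset.sum_le_sum fun l _ => hφ l φ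
      _ = θ * (φ.φ (∑ l, (H l).ψ 1)).re := by
          rw [← Finset.mul_sum, map_sum, Complex.re_sum]
      _ = θ := by rw [hone, φ.one, Complex.one_re, mul_one]

end RC
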